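import Pool.Agent.N496.LT.D1

/-!
# Project LT: matrices over group rings: adjoints, supertraces, tensor products
-/

set_option autoImplicit false

open scoped Matrix

noncomputable section

namespace Pool.Agent.V8H64.LT

section ring
variable {G : Type} [Group G]

/-- the involution -/
def st (a : MonoidAlgebra ℤ G) : MonoidAlgebra ℤ G := MonoidAlgebra.mapDomain (fun g => g⁻¹) a

theorem st_zero : st (0 : MonoidAlgebra ℤ G) = 0 := MonoidAlgebra.mapDomain_zero _
theorem st_add (a b : MonoidAlgebra ℤ G) : st (a + b) = st a + st b := MonoidAlgebra.mapDomain_add _ _ _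
theorem st_single (g : G) (n : ℤ) : st (MonoidAlgebra.single g n) = MonoidAlgebra.single g⁻¹ n :=
  MonoidAlgebra.mapDomain_single

/-- the involution as an additive homomorphism -/
def stHom : MonoidAlgebra ℤ G →+ MonoidAlgebra ℤ G where
  toFun := st
  map_zero' := st_zero
  map_add' := st_add

theorem st_sum {I : Type} (s : Finset I) (f : I → MonoidAlgebra ℤ G) : st (∑ i ∈ s, f i) = ∑ i ∈ s, st (f i) :=
  map_sum (stHom (G := G)) f s

theorem st_neg (a : MonoidAlgebra ℤ G) : st (-a) = -st a := map_neg (stHom (G := G)) a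

theorem st_mul (a b : MonoidAlgebra ℤ G) : st (a * b) = st b * st a := by
  induction a using MonoidAlgebra.induction_linear with
  | zero => rw [zero_mul, st_zero, mul_zero]
  | add a a' h1 h2 => rw [add_mul, st_add, st_add, h1, h2, mul_add]
  | single g c =>
    induction b using MonoidAlgebra.induction_linear with
    | zero => rw [mul_zero, st_zero, zero_mul]
    | add b b' h1 h2 => rw [mul_add, st_add, st_add, h1, h2, add_mul]
    | single h d =>
      rw [MonoidAlgebra.single_mul_single, st_single, st_single, st_single, MonoidAlgebra.single_mul_single,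
        mul_inv_rev, mul_comm c d]

theorem st_one : st (1 : MonoidAlgebra ℤ G) = 1 := by
  rw [MonoidAlgebra.one_def, st_single, inv_one]

/-- trace property -/
theorem coeff_mul_comm (a b : MonoidAlgebra ℤ G) : (a * b).coeff 1 = (b * a).coeff 1 := by
  classical
  induction a using MonoidAlgebra.induction_linear with
  | zero => rw [zero_mul, mul_zero]
  | add a a' h1 h2 => rw [add_mul, mul_add, MonoidAlgebra.coeff_add, MonoidAlgebra.coeff_add, Finsupp.add_apply,
      Finsupp.add_apply, h1, h2]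
  | single g c =>
    induction b using MonoidAlgebra.induction_linear with
    | zero => rw [zero_mul, mul_zero]
    | add b b' h1 h2 => rw [add_mul, mul_add, MonoidAlgebra.coeff_add, MonoidAlgebra.coeff_add, Finsupp.add_apply,
        Finsupp.add_apply, h1, h2]
    | single h d =>
      rw [MonoidAlgebra.single_mul_single, MonoidAlgebra.single_mul_single, MonoidAlgebra.coeff_single,
        MonoidAlgebra.coeff_single, Finsupp.single_apply, Finsupp.single_apply, mul_comm c d]
      have : g * h = 1 ↔ h * g = 1 := by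
        rw [mul_eq_one_iff_eq_inv, mul_eq_one_iff_inv_eq]
        exact eq_comm
      by_cases h1 : g * h = 1
      · rw [if_pos h1, if_pos (this.1 h1)]
      · rw [if_neg h1, if_neg (fun h2 => h1 (this.2 h2))]

variable {I J K : Type}

/-- the adjoint matrix -/
def adj (A : Matrix I J (MonoidAlgebra ℤ G)) : Matrix J I (MonoidAlgebra ℤ G) := A.transpose.map st

theorem adj_apply (A : Matrix I J (MonoidAlgebra ℤ G)) (j : J) (i : I) : adj A j i = st (A i j) := rfl

theorem adj_mul [Fintype J] (A : Matrix I J (MonoidAlgebra ℤ G)) (B : Matrix J K (MonoidAlgebra ℤ G)) :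
    adj (A * B) = adj B * adj A := by
  ext1 i j
  rw [adj_apply, Matrix.mul_apply, st_sum, Matrix.mul_apply]
  exact Finset.sum_congr rfl fun k _ => st_mul _ _

theorem adj_add (A B : Matrix I J (MonoidAlgebra ℤ G)) : adj (A + B) = adj A + adj B := by
  ext1 i j
  exact st_add _ _

theorem adj_zero : adj (0 : Matrix I J (MonoidAlgebra ℤ G)) = 0 := by
  ext1 i j
  exact st_zero

variable [Fintype I] [DecidableEq I]

/-- the total Laplacian -/
def lap (D : Matrix I I (MonoidAlgebra ℤ G)) : Matrix I I (MonoidAlgebra ℤ G) := adj D * D + D * adj D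

/-- the powers of the Laplacian -/
theorem lap_pow (D : Matrix I I (MonoidAlgebra ℤ G)) (h : D * D = 0) (k : ℕ) :
    lap D ^ (k + 1) = (adj D * D) ^ (k + 1) + (D * adj D) ^ (k + 1) := by
  have h' : adj D * adj D = 0 := by rw [← adj_mul, h, adj_zero]
  have e1 : (adj D * D) * (D * adj D) = 0 := by
    rw [mul_assoc, ← mul_assoc D D, h, zero_mul, mul_zero]
  have e2 : (D * adj D) * (adj D * D) = 0 := by
    rw [mul_assoc, ← mul_assoc (adj D) (adj D), h', zero_mul, mul_zero]
  induction k with
  | zero => rw [zero_add, pow_one, pow_one, pow_one]; rfl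
  | succ k ih =>
    rw [pow_succ, ih, lap, add_mul, mul_add, mul_add, ← pow_succ, ← pow_succ]
    have e3 : (adj D * D) ^ (k + 1) * (D * adj D) = 0 := by rw [pow_succ, mul_assoc, e1, mul_zero]
    have e4 : (D * adj D) ^ (k + 1) * (adj D * D) = 0 := by rw [pow_succ, mul_assoc, e2, mul_zero]
    rw [e3, e4, add_zero, zero_add]

/-- the supertrace -/
def str (deg : I → ℕ) (A : Matrix I I (MonoidAlgebra ℤ G)) : ℤ := ∑ i, (-1) ^ deg i * (A i i).coeff 1

omit [DecidableEq I] in
theorem str_add (deg : I → ℕ) (A B : Matrix I I (MonoidAlgebra ℤ G)) : str deg (A + B) = str deg A + str deg B := by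
  unfold str
  rw [← Finset.sum_add_distrib]
  refine Finset.sum_congr rfl fun i _ => ?_
  rw [Matrix.add_apply, MonoidAlgebra.coeff_add, Finsupp.add_apply, mul_add]

omit [Fintype I] [DecidableEq I] in
theorem coeff_sum (s : Finset I) (f : I → MonoidAlgebra ℤ G) : (∑ i ∈ s, f i).coeff 1 = ∑ i ∈ s, (f i).coeff 1 := by
  classical
  induction s using Finset.induction_on with
  | empty => simp
  | insert a s ha ih => rw [Finset.sum_insert ha, Finset.sum_insert ha, MonoidAlgebra.coeff_add, Finsupp.add_apply, ih]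

omit [DecidableEq I] in
theorem str_odd (deg : I → ℕ) (D Y : Matrix I I (MonoidAlgebra ℤ G)) (hD : ∀ i j, D i j ≠ 0 → deg i = deg j + 1) :
    str deg (D * Y) = -str deg (Y * D) := by
  unfold str
  have e1 : ∀ i, (-1 : ℤ) ^ deg i * ((D * Y) i i).coeff 1 = ∑ k, (-1) ^ deg i * (D i k * Y k i).coeff 1 := by
    intro i
    rw [Matrix.mul_apply, coeff_sum, Finset.mul_sum]
  have e2 : ∀ k, (-1 : ℤ) ^ deg k * ((Y * D) k k).coeff 1 = ∑ i, (-1) ^ deg k * (Y k i * D i k).coeff 1 := by
    intro i
    rw [Matrix.mul_apply, coeff_sum, Finset.mul_sum]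
  rw [Finset.sum_congr rfl fun i _ => e1 i, Finset.sum_congr rfl fun k _ => e2 k, Finset.sum_comm,
    ← Finset.sum_neg_distrib]
  refine Finset.sum_congr rfl fun k _ => ?_
  rw [← Finset.sum_neg_distrib]
  refine Finset.sum_congr rfl fun i _ => ?_
  by_cases h : D i k = 0
  · rw [h, zero_mul, mul_zero]
    simp
  · rw [hD i k h, coeff_mul_comm, pow_succ]
    ring

/-- the supertrace of the positive powers of the Laplacian is zero -/
theorem str_lap (deg : I → ℕ) (D : Matrix I I (MonoidAlgebra ℤ G)) (hD : ∀ i j, D i j ≠ 0 → deg i = deg j + 1)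
    (h : D * D = 0) (k : ℕ) : str deg (lap D ^ (k + 1)) = 0 := by
  rw [lap_pow D h, str_add]
  have e1 : (D * adj D) ^ (k + 1) = D * (adj D * (D * adj D) ^ k) := by
    rw [pow_succ', mul_assoc]
  have e2 : adj D * (D * adj D) ^ k * D = (adj D * D) ^ (k + 1) := by
    induction k with
    | zero => simp
    | succ k ih =>
      rw [pow_succ (D * adj D), pow_succ (adj D * D), ← ih (by rw [pow_succ', mul_assoc])]
      simp only [mul_assoc]
  rw [e1, str_odd deg D _ hD, e2, add_neg_cancel]

theorem lap_deg (deg : I → ℕ) (D : Matrix I I (MonoidAlgebra ℤ G)) (hD : ∀ i j, D i j ≠ 0 → deg i = deg j + 1)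
    (i j : I) (h : deg i ≠ deg j) : lap D i j = 0 := by
  unfold lap
  rw [Matrix.add_apply, Matrix.mul_apply, Matrix.mul_apply]
  have h1 : ∑ k, adj D i k * D k j = 0 := by
    refine Finset.sum_eq_zero fun k _ => ?_
    by_cases h1 : D k j = 0
    · rw [h1, mul_zero]
    · by_cases h2 : D k i = 0
      · rw [adj_apply, h2, st_zero, zero_mul]
      · have := hD _ _ h1
        have := hD _ _ h2
        omega
  have h2 : ∑ k, D i k * adj D k j = 0 := by
    refine Finset.sum_eq_zero fun k _ => ?_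
    by_cases h1 : D i k = 0
    · rw [h1, zero_mul]
    · by_cases h2 : D j k = 0
      · rw [adj_apply, h2, st_zero, mul_zero]
      · have := hD _ _ h1
        have := hD _ _ h2
        omega
  rw [h1, h2, add_zero]

end ring

section product
variable {G H : Type} [Group G] [Group H] {I J : Type} [Fintype I] [DecidableEq I] [Fintype J] [DecidableEq J]

/-- the left embedding -/
def inl (a : MonoidAlgebra ℤ G) : MonoidAlgebra ℤ (G × H) := MonoidAlgebra.mapDomainRingHom ℤ (MonoidHom.inl G H) a

/-- the right embedding -/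
def inr (a : MonoidAlgebra ℤ H) : MonoidAlgebra ℤ (G × H) := MonoidAlgebra.mapDomainRingHom ℤ (MonoidHom.inr G H) a

theorem inl_single (g : G) (n : ℤ) : (inl (MonoidAlgebra.single g n) : MonoidAlgebra ℤ (G × H)) =
    MonoidAlgebra.single (g, 1) n := by
  unfold inl
  rw [MonoidAlgebra.mapDomainRingHom_apply, MonoidAlgebra.mapDomain_single]
  rfl

theorem inr_single (g : H) (n : ℤ) : (inr (MonoidAlgebra.single g n) : MonoidAlgebra ℤ (G × H)) =
    MonoidAlgebra.single (1, g) n := by
  unfold inr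
  rw [MonoidAlgebra.mapDomainRingHom_apply, MonoidAlgebra.mapDomain_single]
  rfl

theorem inl_zero : (inl (0 : MonoidAlgebra ℤ G) : MonoidAlgebra ℤ (G × H)) = 0 := map_zero _
theorem inl_one : (inl (1 : MonoidAlgebra ℤ G) : MonoidAlgebra ℤ (G × H)) = 1 := map_one _
theorem inl_add (a b : MonoidAlgebra ℤ G) : (inl (a + b) : MonoidAlgebra ℤ (G × H)) = inl a + inl b := map_add _ _ _
theorem inl_mul (a b : MonoidAlgebra ℤ G) : (inl (a * b) : MonoidAlgebra ℤ (G × H)) = inl a * inl b := map_mul _ _ _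
theorem inl_sum {K : Type} (s : Finset K) (f : K → MonoidAlgebra ℤ G) :
    (inl (∑ k ∈ s, f k) : MonoidAlgebra ℤ (G × H)) = ∑ k ∈ s, inl (f k) := map_sum _ _ _
theorem inr_zero : (inr (0 : MonoidAlgebra ℤ H) : MonoidAlgebra ℤ (G × H)) = 0 := map_zero _
theorem inr_one : (inr (1 : MonoidAlgebra ℤ H) : MonoidAlgebra ℤ (G × H)) = 1 := map_one _
theorem inr_add (a b : MonoidAlgebra ℤ H) : (inr (a + b) : MonoidAlgebra ℤ (G × H)) = inr a + inr b := map_add _ _ _
theorem inr_mul (a b : MonoidAlgebra ℤ H) : (inr (a * b) : MonoidAlgebra ℤ (G × H)) = inr a * inr b := map_mul _ _ _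
theorem inr_sum {K : Type} (s : Finset K) (f : K → MonoidAlgebra ℤ H) :
    (inr (∑ k ∈ s, f k) : MonoidAlgebra ℤ (G × H)) = ∑ k ∈ s, inr (f k) := map_sum _ _ _

theorem inl_inr (a : MonoidAlgebra ℤ G) (b : MonoidAlgebra ℤ H) :
    (inl a * inr b : MonoidAlgebra ℤ (G × H)) = inr b * inl a := Pool.Agent.N496.LT.comm_inl_inr a b

theorem st_inl (a : MonoidAlgebra ℤ G) : st (inl a : MonoidAlgebra ℤ (G × H)) = inl (st a) := by
  induction a using MonoidAlgebra.induction_linear with
  | zero => rw [inl_zero, st_zero, st_zero, inl_zero]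
  | add a a' h1 h2 => rw [inl_add, st_add, st_add, h1, h2, inl_add]
  | single g c =>
    rw [inl_single, st_single, st_single, inl_single]
    congr 1
    simp

theorem st_inr (a : MonoidAlgebra ℤ H) : st (inr a : MonoidAlgebra ℤ (G × H)) = inr (st a) := by
  induction a using MonoidAlgebra.induction_linear with
  | zero => rw [inr_zero, st_zero, st_zero, inr_zero]
  | add a a' h1 h2 => rw [inr_add, st_add, st_add, h1, h2, inr_add]
  | single g c =>
    rw [inr_single, st_single, st_single, inr_single]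
    congr 1
    simp

theorem coeff_inl_inr (a : MonoidAlgebra ℤ G) (b : MonoidAlgebra ℤ H) :
    (inl a * inr b : MonoidAlgebra ℤ (G × H)).coeff 1 = a.coeff 1 * b.coeff 1 := by
  classical
  induction a using MonoidAlgebra.induction_linear with
  | zero => rw [inl_zero, zero_mul]; simp
  | add a a' h1 h2 => rw [inl_add, add_mul, MonoidAlgebra.coeff_add, MonoidAlgebra.coeff_add, Finsupp.add_apply,
      Finsupp.add_apply, h1, h2, add_mul]
  | single g c =>
    induction b using MonoidAlgebra.induction_linear with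
    | zero => rw [inr_zero, mul_zero]; simp
    | add b b' h1 h2 => rw [inr_add, mul_add, MonoidAlgebra.coeff_add, MonoidAlgebra.coeff_add, Finsupp.add_apply,
        Finsupp.add_apply, h1, h2, mul_add]
    | single h d =>
      rw [inl_single, inr_single, MonoidAlgebra.single_mul_single, MonoidAlgebra.coeff_single,
        MonoidAlgebra.coeff_single, MonoidAlgebra.coeff_single, Finsupp.single_apply, Finsupp.single_apply,
        Finsupp.single_apply]
      by_cases h1 : g = 1
      · by_cases h2 : h = 1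
        · subst h1 h2
          simp
        · have : ((g, 1) * (1, h) : G × H) ≠ 1 := fun h3 => h2 (by simpa using (Prod.ext_iff.1 h3).2)
          rw [if_neg this, if_neg h2, mul_zero]
      · have : ((g, 1) * (1, h) : G × H) ≠ 1 := fun h3 => h1 (by simpa using (Prod.ext_iff.1 h3).1)
        rw [if_neg this, if_neg h1, zero_mul]

/-- `A ⊗ 1` -/
def LL (J : Type) [DecidableEq J] (H : Type) [Group H] (A : Matrix I I (MonoidAlgebra ℤ G)) :
    Matrix (I × J) (I × J) (MonoidAlgebra ℤ (G × H)) :=
  Matrix.of fun x y => if x.2 = y.2 then inl (A x.1 y.1) else 0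

/-- `1 ⊗ B` -/
def RR (I : Type) [DecidableEq I] (G : Type) [Group G] (B : Matrix J J (MonoidAlgebra ℤ H)) :
    Matrix (I × J) (I × J) (MonoidAlgebra ℤ (G × H)) :=
  Matrix.of fun x y => if x.1 = y.1 then inr (B x.2 y.2) else 0

theorem LL_mul (A A' : Matrix I I (MonoidAlgebra ℤ G)) : LL J H (A * A') = LL J H A * LL J H A' := by
  ext1 x y
  rw [Matrix.mul_apply, Fintype.sum_prod_type]
  simp only [LL, Matrix.of_apply, Matrix.mul_apply]
  by_cases h : x.2 = y.2
  · rw [if_pos h, inl_sum]
    refine Finset.sum_congr rfl fun k _ => ?_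
    rw [Finset.sum_eq_single x.2]
    · rw [if_pos rfl, if_pos h, inl_mul]
    · intro l _ hl
      rw [if_neg (Ne.symm hl), zero_mul]
    · simp
  · rw [if_neg h]
    symm
    refine Finset.sum_eq_zero fun k _ => Finset.sum_eq_zero fun l _ => ?_
    by_cases h1 : x.2 = l
    · rw [if_neg (fun h2 => h (h1.trans h2)), mul_zero]
    · rw [if_neg h1, zero_mul]

theorem RR_mul (A A' : Matrix J J (MonoidAlgebra ℤ H)) : RR I G (A * A') = RR I G A * RR I G A' := by
  ext1 x y
  rw [Matrix.mul_apply, Fintype.sum_prod_type_right]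
  simp only [RR, Matrix.of_apply, Matrix.mul_apply]
  by_cases h : x.1 = y.1
  · rw [if_pos h, inr_sum]
    refine Finset.sum_congr rfl fun k _ => ?_
    rw [Finset.sum_eq_single x.1]
    · rw [if_pos rfl, if_pos h, inr_mul]
    · intro l _ hl
      rw [if_neg (Ne.symm hl), zero_mul]
    · simp
  · rw [if_neg h]
    symm
    refine Finset.sum_eq_zero fun k _ => Finset.sum_eq_zero fun l _ => ?_
    by_cases h1 : x.1 = l
    · rw [if_neg (fun h2 => h (h1.trans h2)), mul_zero]
    · rw [if_neg h1, zero_mul]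

omit [Fintype I] [Fintype J] [DecidableEq I] in
theorem LL_add (A A' : Matrix I I (MonoidAlgebra ℤ G)) : LL J H (A + A') = LL J H A + LL J H A' := by
  ext1 x y
  simp only [LL, Matrix.of_apply, Matrix.add_apply]
  split_ifs
  · exact inl_add _ _
  · simp

omit [Fintype I] [Fintype J] [DecidableEq J] in
theorem RR_add (A A' : Matrix J J (MonoidAlgebra ℤ H)) : RR I G (A + A') = RR I G A + RR I G A' := by
  ext1 x y
  simp only [RR, Matrix.of_apply, Matrix.add_apply]
  split_ifs
  · exact inr_add _ _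
  · simp

omit [Fintype I] [Fintype J] in
theorem LL_one : LL J H (1 : Matrix I I (MonoidAlgebra ℤ G)) = 1 := by
  ext1 x y
  simp only [LL, Matrix.of_apply, Matrix.one_apply, Prod.ext_iff]
  by_cases h1 : x.2 = y.2
  · by_cases h2 : x.1 = y.1
    · simp [h1, h2, inl_one]
    · simp [h1, h2, inl_zero]
  · simp [h1]

omit [Fintype I] [Fintype J] in
theorem RR_one : RR I G (1 : Matrix J J (MonoidAlgebra ℤ H)) = 1 := by
  ext1 x y
  simp only [RR, Matrix.of_apply, Matrix.one_apply, Prod.ext_iff]
  by_cases h1 : x.1 = y.1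
  · by_cases h2 : x.2 = y.2
    · simp [h1, h2, inr_one]
    · simp [h1, h2, inr_zero]
  · simp [h1]

theorem LL_pow (A : Matrix I I (MonoidAlgebra ℤ G)) (k : ℕ) : LL J H (A ^ k) = LL J H A ^ k := by
  induction k with
  | zero => rw [pow_zero, pow_zero, LL_one]
  | succ k ih => rw [pow_succ, pow_succ, LL_mul, ih]

theorem RR_pow (A : Matrix J J (MonoidAlgebra ℤ H)) (k : ℕ) : RR I G (A ^ k) = RR I G A ^ k := by
  induction k with
  | zero => rw [pow_zero, pow_zero, RR_one]
  | succ k ih => rw [pow_succ, pow_succ, RR_mul, ih]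

theorem LL_RR_apply (A : Matrix I I (MonoidAlgebra ℤ G)) (B : Matrix J J (MonoidAlgebra ℤ H)) (x y : I × J) :
    (LL J H A * RR I G B) x y = inl (A x.1 y.1) * inr (B x.2 y.2) := by
  rw [Matrix.mul_apply, Fintype.sum_prod_type]
  simp only [LL, RR, Matrix.of_apply]
  rw [Finset.sum_eq_single y.1, Finset.sum_eq_single x.2]
  · rw [if_pos rfl, if_pos rfl]
  · intro l _ hl
    rw [if_neg (Ne.symm hl), zero_mul]
  · simp
  · intro k _ hk
    refine Finset.sum_eq_zero fun l _ => ?_
    rw [if_neg hk, mul_zero]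
  · simp

theorem RR_LL_apply (A : Matrix I I (MonoidAlgebra ℤ G)) (B : Matrix J J (MonoidAlgebra ℤ H)) (x y : I × J) :
    (RR I G B * LL J H A) x y = inr (B x.2 y.2) * inl (A x.1 y.1) := by
  rw [Matrix.mul_apply, Fintype.sum_prod_type]
  simp only [LL, RR, Matrix.of_apply]
  rw [Finset.sum_eq_single x.1, Finset.sum_eq_single y.2]
  · rw [if_pos rfl, if_pos rfl]
  · intro l _ hl
    rw [if_neg hl, mul_zero]
  · simp
  · intro k _ hk
    refine Finset.sum_eq_zero fun l _ => ?_
    rw [if_neg (Ne.symm hk), zero_mul]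
  · simp

theorem LL_RR_comm (A : Matrix I I (MonoidAlgebra ℤ G)) (B : Matrix J J (MonoidAlgebra ℤ H)) :
    LL J H A * RR I G B = RR I G B * LL J H A := by
  ext1 x y
  rw [LL_RR_apply, RR_LL_apply, inl_inr]

omit [Fintype I] [Fintype J] [DecidableEq I] in
theorem adj_LL (A : Matrix I I (MonoidAlgebra ℤ G)) : adj (LL J H A) = LL J H (adj A) := by
  ext1 x y
  simp only [LL, Matrix.of_apply, adj_apply]
  by_cases h : x.2 = y.2
  · rw [if_pos h, if_pos h.symm, st_inl]
  · rw [if_neg h, if_neg (Ne.symm h), st_zero]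

omit [Fintype I] [Fintype J] [DecidableEq J] in
theorem adj_RR (A : Matrix J J (MonoidAlgebra ℤ H)) : adj (RR I G A) = RR I G (adj A) := by
  ext1 x y
  simp only [RR, Matrix.of_apply, adj_apply]
  by_cases h : x.1 = y.1
  · rw [if_pos h, if_pos h.symm, st_inr]
  · rw [if_neg h, if_neg (Ne.symm h), st_zero]

/-- the sign -/
def sgn (J : Type) [DecidableEq J] (R : Type) [Ring R] (deg : I → ℕ) : Matrix (I × J) (I × J) R :=
  Matrix.diagonal fun x => (-1) ^ deg x.1

theorem sgn_mul (R : Type) [Ring R] (deg : I → ℕ) : sgn J R deg * sgn J R deg = 1 := by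
  unfold sgn
  rw [Matrix.diagonal_mul_diagonal, ← Matrix.diagonal_one]
  congr 1
  funext x
  rw [← pow_add, ← two_mul, pow_mul]
  simp

theorem st_pow (n : ℕ) : st ((-1) ^ n : MonoidAlgebra ℤ (G × H)) = (-1) ^ n := by
  rcases neg_one_pow_eq_or (MonoidAlgebra ℤ (G × H)) n with h | h
  · rw [h, st_one]
  · rw [h, st_neg, st_one]

omit [Fintype I] [Fintype J] in
theorem adj_sgn (deg : I → ℕ) : adj (sgn J (MonoidAlgebra ℤ (G × H)) deg) = sgn J (MonoidAlgebra ℤ (G × H)) deg := by
  ext1 x y
  rw [adj_apply]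
  unfold sgn
  rw [Matrix.diagonal_apply, Matrix.diagonal_apply]
  by_cases h : x = y
  · subst h
    rw [if_pos rfl, st_pow]
  · rw [if_neg h, if_neg (Ne.symm h), st_zero]

theorem neg_pow_comm {R : Type} [Ring R] (n : ℕ) (r : R) : r * (-1) ^ n = (-1) ^ n * r :=
  ((Commute.neg_one_left r).pow_left n).symm.eq

theorem sgn_RR (deg : I → ℕ) (B : Matrix J J (MonoidAlgebra ℤ H)) :
    sgn J (MonoidAlgebra ℤ (G × H)) deg * RR I G B = RR I G B * sgn J (MonoidAlgebra ℤ (G × H)) deg := by
  ext1 x y
  unfold sgn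
  rw [Matrix.diagonal_mul, Matrix.mul_diagonal, neg_pow_comm]
  simp only [RR, Matrix.of_apply]
  by_cases h : x.1 = y.1
  · rw [h]
  · rw [if_neg h, mul_zero, mul_zero]

theorem sgn_LL (deg : I → ℕ) (A : Matrix I I (MonoidAlgebra ℤ G))
    (hA : ∀ i j, A i j ≠ 0 → deg i = deg j + 1 ∨ deg j = deg i + 1) :
    sgn J (MonoidAlgebra ℤ (G × H)) deg * LL J H A = -(LL J H A * sgn J (MonoidAlgebra ℤ (G × H)) deg) := by
  ext1 x y
  unfold sgn
  rw [Matrix.neg_apply, Matrix.diagonal_mul, Matrix.mul_diagonal, neg_pow_comm]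
  simp only [LL, Matrix.of_apply]
  by_cases h : x.2 = y.2
  · rw [if_pos h]
    by_cases h1 : A x.1 y.1 = 0
    · rw [h1, inl_zero, mul_zero, mul_zero, neg_zero]
    · rcases hA _ _ h1 with h2 | h2
      · rw [h2, pow_succ]
        simp
      · rw [h2, pow_succ]
        simp
  · rw [if_neg h, mul_zero, mul_zero, neg_zero]

/-- the boundary of a product -/
def prodD (deg : I → ℕ) (A : Matrix I I (MonoidAlgebra ℤ G)) (B : Matrix J J (MonoidAlgebra ℤ H)) :
    Matrix (I × J) (I × J) (MonoidAlgebra ℤ (G × H)) :=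
  LL J H A + sgn J (MonoidAlgebra ℤ (G × H)) deg * RR I G B

/-- **the Laplacian of a product** -/
theorem lap_prodD (deg : I → ℕ) (A : Matrix I I (MonoidAlgebra ℤ G)) (B : Matrix J J (MonoidAlgebra ℤ H))
    (hA : ∀ i j, A i j ≠ 0 → deg i = deg j + 1) :
    lap (prodD deg A B) = LL J H (lap A) + RR I G (lap B) := by
  obtain ⟨S, hS⟩ : ∃ S, S = sgn (I := I) J (MonoidAlgebra ℤ (G × H)) deg := ⟨_, rfl⟩
  have hA' : ∀ i j, adj A i j ≠ 0 → deg i = deg j + 1 ∨ deg j = deg i + 1 := by
    intro i j h
    right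
    apply hA
    intro h1
    rw [adj_apply, h1, st_zero] at h
    exact h rfl
  have s1 : S * S = 1 := by rw [hS]; exact sgn_mul _ _
  have s2 : S * LL J H A = -(LL J H A * S) := by rw [hS]; exact sgn_LL deg A fun i j h => Or.inl (hA i j h)
  have s3 : S * LL J H (adj A) = -(LL J H (adj A) * S) := by rw [hS]; exact sgn_LL deg (adj A) hA'
  have s4 : S * RR I G B = RR I G B * S := by rw [hS]; exact sgn_RR deg B
  have s5 : S * RR I G (adj B) = RR I G (adj B) * S := by rw [hS]; exact sgn_RR deg _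
  have e1 : adj (prodD deg A B) = LL J H (adj A) + RR I G (adj B) * S := by
    unfold prodD
    rw [adj_add, adj_LL, adj_mul, adj_RR, adj_sgn, ← hS]
  have c1 := LL_RR_comm A B
  have c2 := LL_RR_comm (adj A) B
  have c3 := LL_RR_comm A (adj B)
  unfold lap
  rw [e1, LL_add, RR_add, LL_mul, LL_mul, RR_mul, RR_mul]
  unfold prodD
  rw [← hS]
  generalize LL J H A = L at *
  generalize LL J H (adj A) = L' at *
  generalize RR I G B = R at *
  generalize RR I G (adj B) = R' at *
  have f1 : L' * (S * R) + S * R * L' = 0 := by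
    rw [← mul_assoc, mul_assoc S R L', ← c2, ← mul_assoc, s3, neg_mul, add_neg_cancel]
  have f2 : R' * S * L + L * (R' * S) = 0 := by
    rw [mul_assoc, s2, ← mul_assoc L R' S, c3, mul_neg, mul_assoc, neg_add_cancel]
  have f3 : R' * S * (S * R) = R' * R := by
    rw [mul_assoc, ← mul_assoc S S R, s1, one_mul]
  have f4 : S * R * (R' * S) = R * R' := by
    rw [s4, mul_assoc, ← mul_assoc S R' S, s5, mul_assoc R' S S, s1, mul_one]
  calc (L' + R' * S) * (L + S * R) + (L + S * R) * (L' + R' * S)
      = L' * L + L * L' + (L' * (S * R) + S * R * L') + (R' * S * L + L * (R' * S)) +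
        (R' * S * (S * R) + S * R * (R' * S)) := by
        rw [add_mul, mul_add, mul_add, add_mul, mul_add, mul_add]
        abel
    _ = L' * L + L * L' + (R' * R + R * R') := by
        rw [f1, f2, f3, f4, add_zero, add_zero]

/-- the moments of a product -/
theorem coeff_lap_prodD (deg : I → ℕ) (A : Matrix I I (MonoidAlgebra ℤ G)) (B : Matrix J J (MonoidAlgebra ℤ H))
    (hA : ∀ i j, A i j ≠ 0 → deg i = deg j + 1) (k : ℕ) (i : I) (j : J) :
    ((lap (prodD deg A B) ^ k) (i, j) (i, j)).coeff 1 =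
      ∑ m ∈ Finset.range (k + 1), ((lap A ^ m) i i).coeff 1 * ((lap B ^ (k - m)) j j).coeff 1 * (k.choose m : ℤ) := by
  rw [lap_prodD deg A B hA, (show Commute (LL J H (lap A)) (RR I G (lap B)) from LL_RR_comm _ _).add_pow,
    Matrix.sum_apply, coeff_sum]
  refine Finset.sum_congr rfl fun m _ => ?_
  rw [← LL_pow, ← RR_pow]
  have : ((k.choose m : ℕ) : Matrix (I × J) (I × J) (MonoidAlgebra ℤ (G × H))) =
      Matrix.diagonal fun _ => ((k.choose m : ℕ) : MonoidAlgebra ℤ (G × H)) := by
    rfl
  rw [this, Matrix.mul_diagonal, LL_RR_apply, ← coeff_inl_inr, ← nsmul_eq_mul', MonoidAlgebra.coeff_smul,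
    Finsupp.smul_apply, nsmul_eq_mul, mul_comm]

end product

end Pool.Agent.V8H64.LT
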