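import Pool.Agent.Helper993.Luck
import Pool.Agent.Helper993.DeltaDef

/-!
# Project LT: spectral measures at vectors
-/

set_option autoImplicit false

open scoped InnerProductSpace Topology CompactlySupported

noncomputable section

namespace Pool.Agent.V8H64.LT

open MeasureTheory Pool.Agent.Helper993.FK Set

section general
variable {H : Type} [NormedAddCommGroup H] [InnerProductSpace ℂ H] [CompleteSpace H]

/-- the spectral measure of `T` at the vector `e` -/
def sm (T : H →L[ℂ] H) (e : H) : Measure ℝ := spectralMeasure (fun _ : Fin 1 => e) T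

instance (T : H →L[ℂ] H) (e : H) : Measure.Regular (sm T e) := by
  unfold sm spectralMeasure
  infer_instance

theorem integral_sm (T : H →L[ℂ] H) (e : H) (h : C_c(ℝ, ℝ)) :
    ∫ x, h x ∂(sm T e) = (⟪e, cfc (h : ℝ → ℝ) T e⟫_ℂ).re := by
  unfold sm
  rw [integral_spectralMeasure]
  simp

/-- a compactly supported cutoff of a continuous function -/
def ct (f : ℝ → ℝ) (hf : Continuous f) (n : ℕ) : C_c(ℝ, ℝ) where
  toFun x := f x * cut n x
  continuous_toFun := hf.mul (cut_continuous n)
  hasCompactSupport' := by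
    apply HasCompactSupport.intro (isCompact_Icc (a := -((n : ℝ) + 1)) (b := (n : ℝ) + 1))
    intro x hx
    have : (n : ℝ) + 1 ≤ |x| := by
      by_contra hcon
      push Not at hcon
      rw [abs_lt] at hcon
      exact hx ⟨hcon.1.le, hcon.2.le⟩
    rw [cut_eq_zero this, mul_zero]

theorem ct_apply (f : ℝ → ℝ) (hf : Continuous f) (n : ℕ) (x : ℝ) : ct f hf n x = f x * cut n x := rfl

theorem ae_sm (T : H →L[ℂ] H) (hT : 0 ≤ T) (e : H) {K : ℝ} (hK : ‖T‖ ≤ K) :
    ∀ᵐ x ∂(sm T e), x ∈ Icc 0 K := by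
  have hg : Continuous (fun x : ℝ => max (-x) 0 + max (x - K) 0) := by fun_prop
  have h1 : ∀ n : ℕ, ∀ᵐ x ∂(sm T e), ct _ hg n x = 0 := by
    intro n
    have h2 : ∫ x, ct _ hg n x ∂(sm T e) = 0 := by
      rw [integral_sm]
      have : cfc (ct _ hg n : ℝ → ℝ) T = cfc (fun _ : ℝ => (0 : ℝ)) T := by
        refine cfc_congr fun x hx => ?_
        have := spectrum_Icc T hT hK hx
        rw [ct_apply, max_eq_right (by linarith [this.1]), max_eq_right (by linarith [this.2])]
        simp
      rw [this, cfc_const_zero]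
      simp
    have h3 : Integrable (ct _ hg n) (sm T e) := (ct _ hg n).continuous.integrable_of_hasCompactSupport
      (ct _ hg n).hasCompactSupport
    have h4 : 0 ≤ᵐ[sm T e] (ct _ hg n : ℝ → ℝ) := by
      refine Filter.Eventually.of_forall fun x => ?_
      rw [ct_apply]
      exact mul_nonneg (add_nonneg (le_max_right _ _) (le_max_right _ _)) (cut_nonneg n x)
    exact (integral_eq_zero_iff_of_nonneg_ae h4 h3).1 h2
  rw [← ae_all_iff] at h1
  filter_upwards [h1] with x hx
  obtain ⟨n, hn⟩ := exists_nat_ge |x|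
  have h2 := hx n
  rw [ct_apply, cut_eq_one hn, mul_one] at h2
  have h3 : max (-x) 0 = 0 := by
    have := le_max_right (-x) 0
    have := le_max_right (x - K) 0
    linarith
  have h4 : max (x - K) 0 = 0 := by
    have := le_max_right (-x) 0
    linarith
  constructor
  · have := le_max_left (-x) 0
    linarith
  · have := le_max_left (x - K) 0
    linarith

theorem finite_sm (T : H →L[ℂ] H) (hT : 0 ≤ T) (e : H) : IsFiniteMeasure (sm T e) := by
  constructor
  have h := ae_sm T hT e le_rfl
  rw [ae_iff] at h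
  have h1 : (univ : Set ℝ) = Icc 0 ‖T‖ ∪ {a | ¬ a ∈ Icc 0 ‖T‖} := by
    ext x
    simp only [mem_univ, mem_union, true_iff]
    exact em _
  calc (sm T e) univ ≤ (sm T e) (Icc 0 ‖T‖) + (sm T e) {a | ¬ a ∈ Icc 0 ‖T‖} := by
        rw [h1]; exact measure_union_le _ _
    _ < ⊤ := by
        rw [h, add_zero]
        exact isCompact_Icc.measure_lt_top

/-- the integral of any continuous function -/
theorem integral_cont (T : H →L[ℂ] H) (hT : 0 ≤ T) (e : H) (f : ℝ → ℝ) (hf : Continuous f) :
    ∫ x, f x ∂(sm T e) = (⟪e, cfc f T e⟫_ℂ).re := by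
  obtain ⟨n, hn⟩ := exists_nat_ge ‖T‖
  have h1 : ∫ x, f x ∂(sm T e) = ∫ x, ct f hf n x ∂(sm T e) := by
    refine integral_congr_ae ?_
    filter_upwards [ae_sm T hT e hn] with x hx
    rw [ct_apply, cut_eq_one (by rw [abs_of_nonneg hx.1]; exact hx.2), mul_one]
  rw [h1, integral_sm]
  have : cfc (ct f hf n : ℝ → ℝ) T = cfc f T := by
    refine cfc_congr fun x hx => ?_
    have := spectrum_Icc T hT hn hx
    rw [ct_apply, cut_eq_one (by rw [abs_of_nonneg this.1]; exact this.2), mul_one]
  rw [this]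

theorem moment_sm (T : H →L[ℂ] H) (hT : 0 ≤ T) (e : H) (k : ℕ) :
    ∫ x, x ^ k ∂(sm T e) = (⟪e, (T ^ k) e⟫_ℂ).re := by
  have hsa : IsSelfAdjoint T := IsSelfAdjoint.of_nonneg hT
  rw [integral_cont T hT e _ (by fun_prop), cfc_pow_id T k]

end general

section moments

variable {μ ν : Measure ℝ}

theorem integrable_cont [IsFiniteMeasure μ] {R : ℝ} (h : ∀ᵐ x ∂μ, x ∈ Icc 0 R) {f : ℝ → ℝ} (hf : Continuous f) :
    Integrable f μ := by
  obtain ⟨C, hC⟩ := (isCompact_Icc (a := (0 : ℝ)) (b := R)).exists_bound_of_continuousOn hf.continuousOn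
  refine Integrable.of_bound hf.aestronglyMeasurable C ?_
  filter_upwards [h] with x hx using hC x hx

/-- finite measures on an interval are determined by the moments -/
theorem eq_of_moments [IsFiniteMeasure μ] [IsFiniteMeasure ν] {R : ℝ} (hμ : ∀ᵐ x ∂μ, x ∈ Icc 0 R)
    (hν : ∀ᵐ x ∂ν, x ∈ Icc 0 R) (h : ∀ k : ℕ, ∫ x, x ^ k ∂μ = ∫ x, x ^ k ∂ν) : μ = ν := by
  apply MeasureTheory.ext_of_forall_integral_eq_of_IsFiniteMeasure
  intro f
  have hp : ∀ p : Polynomial ℝ, ∫ x, p.eval x ∂μ = ∫ x, p.eval x ∂ν := by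
    intro p
    simp only [Polynomial.eval_eq_sum_range]
    rw [integral_finsetSum _ fun i _ => (integrable_cont hμ (by fun_prop)),
      integral_finsetSum _ fun i _ => (integrable_cont hν (by fun_prop))]
    refine Finset.sum_congr rfl fun i _ => ?_
    rw [integral_const_mul, integral_const_mul, h]
  have key : ∀ (ρ : Measure ℝ) [IsFiniteMeasure ρ], (∀ᵐ x ∂ρ, x ∈ Icc 0 R) → ∀ (p : Polynomial ℝ) (ε : ℝ),
      (∀ x ∈ Icc 0 R, |p.eval x - f x| < ε) → |∫ x, p.eval x ∂ρ - ∫ x, f x ∂ρ| ≤ ε * ρ.real univ := by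
    intro ρ _ hρ p ε hpe
    rw [← integral_sub (integrable_cont hρ (by fun_prop)) (integrable_cont hρ f.continuous)]
    have h5 : ∀ᵐ x ∂ρ, ‖p.eval x - f x‖ ≤ ε := by
      filter_upwards [hρ] with x hx using (hpe x hx).le
    exact norm_integral_le_of_norm_le_const h5
  rw [← sub_eq_zero, ← abs_eq_zero]
  apply le_antisymm _ (abs_nonneg _)
  apply le_of_forall_pos_le_add
  intro ε hε
  set M := μ.real univ + ν.real univ with hM
  have hM0 : 0 ≤ M := add_nonneg measureReal_nonneg measureReal_nonneg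
  obtain ⟨p, hpf⟩ := exists_polynomial_near_of_continuousOn 0 R f f.continuous.continuousOn
    (ε / (M + 1)) (by positivity)
  have h1 := key μ hμ p _ hpf
  have h2 := key ν hν p _ hpf
  rw [hp p] at h1
  have h3 : ε / (M + 1) * M ≤ ε := by
    rw [div_mul_eq_mul_div, div_le_iff₀ (by positivity)]
    nlinarith
  have h4 : ε / (M + 1) * μ.real univ + ε / (M + 1) * ν.real univ = ε / (M + 1) * M := by
    rw [hM]; ring
  rw [abs_le] at h1 h2 ⊢
  constructor <;> linarith [h1.1, h1.2, h2.1, h2.2]

end moments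

section general
variable {H : Type} [NormedAddCommGroup H] [InnerProductSpace ℂ H] [CompleteSpace H]

theorem nonneg_sq (T : H →L[ℂ] H) (hT : 0 ≤ T) : 0 ≤ T * T := by
  have hsa : IsSelfAdjoint T := IsSelfAdjoint.of_nonneg hT
  have := adjoint_comp_nonneg T
  rw [hsa.adjoint_eq] at this
  exact this

theorem ae_map_sq {μ : Measure ℝ} {R : ℝ} (h : ∀ᵐ x ∂μ, x ∈ Icc 0 R) :
    ∀ᵐ x ∂(μ.map fun x => x ^ 2), x ∈ Icc 0 (R ^ 2) := by
  refine (ae_map_iff (μ := μ) (f := fun x : ℝ => x ^ 2) (p := fun x => x ∈ Icc 0 (R ^ 2)) (by fun_prop)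
    measurableSet_Icc).2 ?_
  filter_upwards [h] with x hx
  exact ⟨by positivity, pow_le_pow_left₀ hx.1 hx.2 2⟩

theorem ae_mono {μ : Measure ℝ} {R R' : ℝ} (hR : R ≤ R') (h : ∀ᵐ x ∂μ, x ∈ Icc 0 R) :
    ∀ᵐ x ∂μ, x ∈ Icc 0 R' := by
  filter_upwards [h] with x hx using ⟨hx.1, hx.2.trans hR⟩

theorem sm_sq (T : H →L[ℂ] H) (hT : 0 ≤ T) (e : H) : sm (T * T) e = (sm T e).map fun x => x ^ 2 := by
  have := finite_sm T hT e
  have := finite_sm (T * T) (nonneg_sq T hT) e
  have : IsFiniteMeasure ((sm T e).map fun x => x ^ 2) := by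
    constructor
    rw [Measure.map_apply (by fun_prop) MeasurableSet.univ]
    exact measure_lt_top _ _
  refine eq_of_moments (ae_mono (le_max_left _ _) (ae_sm _ (nonneg_sq T hT) e le_rfl))
    (ae_mono (le_max_right ‖T * T‖ _) (ae_map_sq (ae_sm T hT e le_rfl))) fun k => ?_
  rw [moment_sm _ (nonneg_sq T hT), integral_map (by fun_prop) (by fun_prop)]
  have h1 : ∀ x : ℝ, (x ^ 2) ^ k = x ^ (2 * k) := fun x => (pow_mul x 2 k).symm
  simp only [h1]
  rw [moment_sm T hT, pow_mul, pow_two]

theorem spectralMeasure_eq_sum {r : ℕ} (e : Fin r → H) (T : H →L[ℂ] H) :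
    spectralMeasure e T = ∑ i, sm T (e i) := by
  have h1 : Measure.Regular (spectralMeasure e T) := by
    unfold spectralMeasure
    infer_instance
  have h0 : ∀ s : Finset (Fin r), IsFiniteMeasureOnCompacts (∑ i ∈ s, sm T (e i)) := by
    intro s
    constructor
    intro K hK
    rw [Measure.finsetSum_apply]
    exact ENNReal.sum_lt_top.2 fun i _ => hK.measure_lt_top
  have h2 : Measure.Regular (∑ i, sm T (e i)) := by
    have := h0 Finset.univ
    infer_instance
  apply MeasureTheory.Measure.ext_of_integral_eq_on_compactlySupported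
  intro f
  have hint : ∀ i ∈ Finset.univ, Integrable f (sm T (e i)) := fun i _ =>
    f.continuous.integrable_of_hasCompactSupport f.hasCompactSupport
  rw [integral_spectralMeasure, integral_finsetSum_measure hint]
  exact Finset.sum_congr rfl fun i _ => (integral_sm T (e i) f).symm

theorem log_map_sq {μ : Measure ℝ} {R : ℝ} (h : ∀ᵐ x ∂μ, x ∈ Icc 0 R) :
    (IntegrableOn Real.log (Ioi 0) (μ.map fun x => x ^ 2) ↔ IntegrableOn Real.log (Ioi 0) μ) ∧
    ∫ x in Ioi 0, Real.log x ∂(μ.map fun x => x ^ 2) = 2 * ∫ x in Ioi 0, Real.log x ∂μ := by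
  have hm : Measurable (fun x : ℝ => x ^ 2) := by fun_prop
  have h1 : (μ.map fun x => x ^ 2).restrict (Ioi 0) = (μ.restrict (Ioi 0)).map fun x => x ^ 2 := by
    rw [Measure.restrict_map hm measurableSet_Ioi]
    congr 1
    apply Measure.restrict_congr_set
    filter_upwards [h] with x hx
    apply propext
    change 0 < x ^ 2 ↔ 0 < x
    constructor
    · intro h2
      rcases hx.1.lt_or_eq with h3 | h3
      · exact h3
      · rw [← h3] at h2
        norm_num at h2
    · intro h2
      positivity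
  have e : (Real.log ∘ fun x : ℝ => x ^ 2) = fun x => 2 * Real.log x := by
    funext x
    simp only [Function.comp_apply]
    rw [Real.log_pow]
    norm_num
  constructor
  · unfold IntegrableOn
    rw [h1, integrable_map_measure (Real.measurable_log.aestronglyMeasurable) hm.aemeasurable, e]
    exact integrable_const_mul_iff (isUnit_iff_ne_zero.2 two_ne_zero) _
  · rw [h1, integral_map hm.aemeasurable (Real.measurable_log.aestronglyMeasurable), ← integral_const_mul]
    have : ∀ x : ℝ, Real.log (x ^ 2) = 2 * Real.log x := fun x => congrFun e x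
    simp only [this]

end general

section group
variable {G : Type} [Group G] {r s : ℕ}

/-- the logarithm of the determinant of a positive operator -/
theorem log_fkDet (T : L2Pow G r →L[ℂ] L2Pow G r) (hT : 0 ≤ T) (h : 0 < fkDet T) :
    (∀ i, IntegrableOn Real.log (Ioi 0) (sm T (unitVec i))) ∧
    Real.log (fkDet T) = ∑ i, ∫ x in Ioi 0, Real.log x ∂(sm T (unitVec i)) := by
  have hsa : IsSelfAdjoint T := IsSelfAdjoint.of_nonneg hT
  have e1 : specMeas unitVec T = ∑ i : Fin r, (sm T (unitVec i)).map fun x => x ^ 2 := by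
    unfold specMeas
    rw [hsa.adjoint_eq, spectralMeasure_eq_sum]
    exact Finset.sum_congr rfl fun i _ => sm_sq T hT _
  unfold fkDet detOf at h ⊢
  by_cases hi : IntegrableOn Real.log (Ioi 0) (specMeas unitVec T)
  · rw [if_pos hi, Real.log_exp]
    rw [e1] at hi ⊢
    have h2 : ∀ i, IntegrableOn Real.log (Ioi 0) ((sm T (unitVec i)).map fun x => x ^ 2) := by
      intro i
      refine hi.mono_measure ?_
      exact Finset.single_le_sum (f := fun i : Fin r => (sm T (unitVec i)).map fun x => x ^ 2)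
        (fun i _ => Measure.zero_le _) (Finset.mem_univ i)
    refine ⟨fun i => (log_map_sq (ae_sm T hT _ le_rfl)).1.1 (h2 i), ?_⟩
    have h3 : (∑ i : Fin r, (sm T (unitVec i)).map fun x => x ^ 2).restrict (Ioi 0) =
        ∑ i : Fin r, ((sm T (unitVec i)).map fun x => x ^ 2).restrict (Ioi 0) := by
      ext s hs
      rw [Measure.restrict_apply hs, Measure.finsetSum_apply, Measure.finsetSum_apply]
      exact Finset.sum_congr rfl fun i _ => (Measure.restrict_apply hs).symm
    rw [h3, integral_finsetSum_measure (fun i _ => h2 i), Finset.mul_sum]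
    refine Finset.sum_congr rfl fun i _ => ?_
    rw [(log_map_sq (ae_sm T hT _ le_rfl)).2]
    ring
  · rw [if_neg hi] at h
    exact absurd h (lt_irrefl _)

/-- translates of a vector of the kernel -/
theorem eq_zero_of_coord (A : Matrix (Fin r) (Fin s) (MonoidAlgebra ℚ G))
    (h : ∀ w, rMul A w = 0 → ∀ j, coord w j 1 = 0) (w : L2Pow G r) (hw : rMul A w = 0) : w = 0 := by
  apply coord_ext
  intro j g
  rw [coord_zero]
  obtain ⟨w', hw'⟩ := exists_translate w g
  have h1 : rMul A w' = 0 := by
    apply coord_ext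
    intro k h
    rw [coord_zero, rMul_apply]
    have := congrArg (fun x => coord x k (g * h)) hw
    simp only [coord_zero, rMul_apply] at this
    rw [← this]
    simp only [hw', mul_assoc]
  have h2 := h w' h1 j
  rwa [hw', mul_one] at h2

/-- the kernel is trivial if its dimension is zero -/
theorem inj_of_dimKer (A : Matrix (Fin r) (Fin r) (MonoidAlgebra ℚ G))
    (h : Pool.Agent.Helper993.Delta.dimKer (rMul A) = 0) (w : L2Pow G r) (hw : rMul A w = 0) : w = 0 := by
  refine eq_zero_of_coord A (fun w hw j => ?_) w hw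
  have hn : ∀ i : Fin r, (⟪(unitVec i : L2Pow G r), (rMul A).ker.starProjection (unitVec i)⟫_ℂ).re =
      ‖(rMul A).ker.starProjection (unitVec i)‖ ^ 2 := by
    intro i
    have h1 := Submodule.inner_starProjection_left_eq_right (rMul A).ker (unitVec i)
      ((rMul A).ker.starProjection (unitVec i : L2Pow G r))
    have h2 : (rMul A).ker.starProjection ((rMul A).ker.starProjection (unitVec i : L2Pow G r)) =
        (rMul A).ker.starProjection (unitVec i : L2Pow G r) :=
      Submodule.starProjection_eq_self_iff.2 (Submodule.starProjection_apply_mem _ _)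
    rw [h2] at h1
    exact (congrArg Complex.re h1).symm.trans (norm_sq_eq_re_inner (𝕜 := ℂ) _).symm
  unfold Pool.Agent.Helper993.Delta.dimKer at h
  rw [Finset.sum_congr rfl fun i _ => hn i, Finset.sum_eq_zero_iff_of_nonneg fun i _ => by positivity] at h
  have h1 : (rMul A).ker.starProjection (unitVec j : L2Pow G r) = 0 := by
    have := h j (Finset.mem_univ j)
    rwa [sq_eq_zero_iff, norm_eq_zero] at this
  rw [← inner_unitVec]
  have h2 : (rMul A).ker.starProjection w = w := Submodule.starProjection_eq_self_iff.2 (LinearMap.mem_ker.2 hw)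
  have h3 := Submodule.inner_starProjection_left_eq_right (rMul A).ker (unitVec j : L2Pow G r) w
  rw [h1, h2] at h3
  exact h3.symm.trans (inner_zero_left w)

end group

section zero
variable {H : Type} [NormedAddCommGroup H] [InnerProductSpace ℂ H] [CompleteSpace H]

/-- no mass at zero for an injective operator -/
theorem sm_zero_of_inj (T : H →L[ℂ] H) (hT : 0 ≤ T) (hinj : ∀ v, T v = 0 → v = 0) (e : H) (he : ‖e‖ ≤ 1) :
    sm T e {0} = 0 := by
  have := finite_sm T hT e
  have h0 : (sm T e).real {0} ≤ 0 := by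
    apply le_of_forall_pos_le_add
    intro ε hε
    obtain ⟨δ, hδ, h1⟩ := bump_small (fun _ : Fin 1 => e) (fun _ => he) T hT hinj hε
    have h2 : traceVal (fun _ : Fin 1 => e) T (bump δ) = ∫ x, bump δ x ∂(sm T e) := by
      rw [integral_cont T hT e _ (bump_continuous δ)]
      unfold traceVal
      simp
    rw [h2] at h1
    have h3 : (sm T e).real {0} = ∫ x, (({0} : Set ℝ).indicator (fun _ => (1 : ℝ))) x ∂(sm T e) := by
      rw [integral_indicator (measurableSet_singleton 0)]
      simp [Measure.real]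
    rw [h3, zero_add]
    refine le_trans (integral_mono_of_nonneg ?_ (integrable_cont (ae_sm T hT e le_rfl) (bump_continuous δ)) ?_) h1
    · exact Filter.Eventually.of_forall fun x => indicator_nonneg (fun _ _ => zero_le_one) _
    · refine Filter.Eventually.of_forall fun x => ?_
      by_cases hx : x = 0
      · subst hx
        simp [bump_zero]
      · rw [indicator_of_notMem (by simpa using hx)]
        exact bump_nonneg _ _
  have h1 := le_antisymm h0 measureReal_nonneg
  rwa [measureReal_eq_zero_iff] at h1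

/-- the vectors of the kernel are orthogonal to the vectors without mass at zero -/
theorem inner_ker_of_sm_zero (T : H →L[ℂ] H) (hT : 0 ≤ T) (e w : H) (h : sm T e {0} = 0) (hw : T w = 0) :
    ⟪e, w⟫_ℂ = 0 := by
  have := finite_sm T hT e
  have h1 : ∀ n : ℕ, ‖⟪e, w⟫_ℂ‖ ^ 2 ≤ (∫ x, bump (1 / ((n : ℝ) + 1)) x ∂(sm T e)) * ‖w‖ ^ 2 := by
    intro n
    have h2 := inner_ker_le (fun _ : Fin 1 => e) T hT (1 / ((n : ℝ) + 1)) w hw 0
    have h3 : traceVal (fun _ : Fin 1 => e) T (bump (1 / ((n : ℝ) + 1))) =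
        ∫ x, bump (1 / ((n : ℝ) + 1)) x ∂(sm T e) := by
      rw [integral_cont T hT e _ (bump_continuous _)]
      unfold traceVal
      simp
    rwa [h3] at h2
  have h2 : Filter.Tendsto (fun n : ℕ => ∫ x, bump (1 / ((n : ℝ) + 1)) x ∂(sm T e)) Filter.atTop
      (𝓝 (∫ x, ({0} : Set ℝ).indicator (fun _ => (1 : ℝ)) x ∂(sm T e))) := by
    refine tendsto_integral_of_dominated_convergence (fun _ => (1 : ℝ))
      (fun n => (bump_continuous _).aestronglyMeasurable) (integrable_const _) (fun n => ?_) ?_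
    · refine Filter.Eventually.of_forall fun x => ?_
      rw [Real.norm_eq_abs, abs_of_nonneg (bump_nonneg _ _)]
      exact bump_le_one _ _
    · filter_upwards [ae_sm T hT e le_rfl] with x hx
      by_cases hx0 : x = 0
      · subst hx0
        simp [bump_zero]
      · have hpos : 0 < x := lt_of_le_of_ne hx.1 (Ne.symm hx0)
        rw [indicator_of_notMem (by simpa using hx0)]
        apply tendsto_const_nhds.congr'
        obtain ⟨m, hm⟩ := exists_nat_gt (1 / x)
        filter_upwards [Filter.eventually_ge_atTop m] with n hn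
        symm
        apply bump_of_le (by positivity)
        have hn' : (m : ℝ) ≤ n := by exact_mod_cast hn
        rw [div_le_iff₀ (by positivity)]
        rw [div_lt_iff₀ hpos] at hm
        nlinarith
  have h3 : ∫ x, ({0} : Set ℝ).indicator (fun _ => (1 : ℝ)) x ∂(sm T e) = 0 := by
    rw [integral_indicator (measurableSet_singleton 0)]
    simp [Measure.real, h]
  rw [h3] at h2
  have h4 : ‖⟪e, w⟫_ℂ‖ ^ 2 ≤ 0 * ‖w‖ ^ 2 :=
    ge_of_tendsto' (h2.mul_const _) h1
  rw [zero_mul] at h4
  have h5 : ‖⟪e, w⟫_ℂ‖ = 0 := by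
    have := norm_nonneg ⟪e, w⟫_ℂ
    nlinarith [sq_nonneg ‖⟪e, w⟫_ℂ‖]
  exact norm_eq_zero.1 h5

end zero

/-- the kernel is trivial if the spectral measures have no mass at zero -/
theorem inj_of_sm_zero {G : Type} [Group G] {r : ℕ} (A : Matrix (Fin r) (Fin r) (MonoidAlgebra ℚ G))
    (hA : 0 ≤ rMul A) (h : ∀ i, sm (rMul A) (unitVec i) {0} = 0) (w : L2Pow G r) (hw : rMul A w = 0) : w = 0 := by
  refine eq_zero_of_coord A (fun w hw j => ?_) w hw
  rw [← inner_unitVec]
  exact inner_ker_of_sm_zero _ hA _ _ (h j) hw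

end Pool.Agent.V8H64.LT
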