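import Pool.Agent.N496.LT.Defs
import Pool.Agent.V8H64.LT.Sp
import Pool.Agent.V8H64.LT.Alg

/-!
# Project LT: the spectral measures of the cells of a complex
-/

set_option autoImplicit false

open scoped Matrix InnerProductSpace

noncomputable section

namespace Pool.Agent.V8H64.LT

open MeasureTheory Pool.Agent.Helper993.FK Set Pool.Agent.N496.LT Pool.Agent.TH630.Tor

variable {G : Type} [Group G]

theorem laplacian_nonneg (C : FreeCx G) (n : ℕ) : 0 ≤ C.laplacian n := by
  have h1 : ∀ {H K : Type} [NormedAddCommGroup H] [InnerProductSpace ℂ H] [CompleteSpace H]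
      [NormedAddCommGroup K] [InnerProductSpace ℂ K] [CompleteSpace K] (f : H →L[ℂ] K), 0 ≤ f ∘L f.adjoint := by
    intro H K _ _ _ _ _ _ f
    have := adjoint_comp_nonneg f.adjoint
    rwa [ContinuousLinearMap.adjoint_adjoint] at this
  cases n with
  | zero => exact h1 _
  | succ n => exact add_nonneg (h1 _) (adjoint_comp_nonneg _)

section cells
variable (C : GCx G)

/-- the cell with the number `a` in degree `n` -/
def cellOf (n : ℕ) (a : Fin (C.toFree.rank n)) : {i : C.ι // C.deg i = n} :=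
  (Fintype.equivFin {i : C.ι // C.deg i = n}).symm a

/-- the number of a cell -/
def num (i : C.ι) : Fin (C.toFree.rank (C.deg i)) :=
  Fintype.equivFin {j : C.ι // C.deg j = C.deg i} ⟨i, rfl⟩

theorem cellOf_num (i : C.ι) : (cellOf C (C.deg i) (num C i)).1 = i := by
  unfold cellOf num
  rw [Equiv.symm_apply_apply]

theorem d_apply (n : ℕ) (a : Fin (C.toFree.rank (n + 1))) (b : Fin (C.toFree.rank n)) :
    C.toFree.d n a b = C.D (cellOf C (n + 1) a).1 (cellOf C n b).1 := rfl

theorem sum_cellOf (n : ℕ) {M : Type} [AddCommMonoid M] (f : C.ι → M) (h : ∀ k, C.deg k ≠ n → f k = 0) :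
    ∑ a : Fin (C.toFree.rank n), f (cellOf C n a).1 = ∑ k, f k := by
  rw [← sum_deg C.deg n f h]
  exact (Fintype.equivFin {i : C.ι // C.deg i = n}).symm.sum_comp fun k => f k.1

theorem lapM_apply (n : ℕ) (a b : Fin (C.toFree.rank n)) :
    C.toFree.lapM n a b = lap C.D (cellOf C n a).1 (cellOf C n b).1 := by
  have e1 : ∀ n (a b : Fin (C.toFree.rank n)), (adjZ (C.toFree.d n) * C.toFree.d n) a b =
      (adj C.D * C.D) (cellOf C n a).1 (cellOf C n b).1 := by
    intro n a b
    rw [Matrix.mul_apply, Matrix.mul_apply, ← sum_cellOf C (n + 1)]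
    · rfl
    · intro k hk
      by_cases h : C.D k (cellOf C n b).1 = 0
      · rw [h, mul_zero]
      · exfalso
        have := C.D_deg _ _ h
        rw [(cellOf C n b).2] at this
        exact hk this
  have e2 : ∀ n (a b : Fin (C.toFree.rank (n + 1))), (C.toFree.d n * adjZ (C.toFree.d n)) a b =
      (C.D * adj C.D) (cellOf C (n + 1) a).1 (cellOf C (n + 1) b).1 := by
    intro n a b
    rw [Matrix.mul_apply, Matrix.mul_apply, ← sum_cellOf C n]
    · rfl
    · intro k hk
      by_cases h : C.D (cellOf C (n + 1) a).1 k = 0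
      · rw [h, zero_mul]
      · exfalso
        have := C.D_deg _ _ h
        rw [(cellOf C (n + 1) a).2] at this
        omega
  unfold lap
  cases n with
  | zero =>
    change (adjZ (C.toFree.d 0) * C.toFree.d 0) a b = _
    rw [e1, Matrix.add_apply]
    have : (C.D * adj C.D) (cellOf C 0 a).1 (cellOf C 0 b).1 = 0 := by
      rw [Matrix.mul_apply]
      refine Finset.sum_eq_zero fun k _ => ?_
      by_cases h : C.D (cellOf C 0 a).1 k = 0
      · rw [h, zero_mul]
      · exfalso
        have := C.D_deg _ _ h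
        rw [(cellOf C 0 a).2] at this
        omega
    rw [this, add_zero]
  | succ n =>
    change (adjZ (C.toFree.d (n + 1)) * C.toFree.d (n + 1)) a b + (C.toFree.d n * adjZ (C.toFree.d n)) a b = _
    rw [Matrix.add_apply, e1, e2]

theorem lapM_pow (n k : ℕ) (a b : Fin (C.toFree.rank n)) :
    (C.toFree.lapM n ^ k) a b = (lap C.D ^ k) (cellOf C n a).1 (cellOf C n b).1 := by
  induction k generalizing a b with
  | zero =>
    rw [pow_zero, pow_zero, Matrix.one_apply, Matrix.one_apply]
    have h : a = b ↔ (cellOf C n a).1 = (cellOf C n b).1 := by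
      constructor
      · intro h
        rw [h]
      · intro h
        have := Subtype.ext h
        exact (Fintype.equivFin {i : C.ι // C.deg i = n}).symm.injective this
    by_cases h1 : a = b
    · rw [if_pos h1, if_pos (h.1 h1)]
    · rw [if_neg h1, if_neg (fun h2 => h1 (h.2 h2))]
  | succ k ih =>
    rw [pow_succ, pow_succ, Matrix.mul_apply, Matrix.mul_apply, ← sum_cellOf C n]
    · refine Finset.sum_congr rfl fun c _ => ?_
      rw [ih, lapM_apply]
    · intro c hc
      rw [lap_deg C.deg C.D C.D_deg c _ (by rw [(cellOf C n b).2]; exact hc), mul_zero]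

theorem coeff_toQ (a : MonoidAlgebra ℤ G) : (toQ a).coeff 1 = ((a.coeff 1 : ℤ) : ℚ) := toQ_coeff a 1

theorem rMul_pow {r : ℕ} (A : Matrix (Fin r) (Fin r) (MonoidAlgebra ℤ G)) (k : ℕ) :
    (rMul (A.map toQ)) ^ k = rMul ((A ^ k).map toQ) := by
  induction k with
  | zero =>
    rw [pow_zero, pow_zero]
    have h1 : ((1 : Matrix (Fin r) (Fin r) (MonoidAlgebra ℤ G)).map toQ) = 1 := by
      have : (toQ : MonoidAlgebra ℤ G → MonoidAlgebra ℚ G)
        = MonoidAlgebra.mapRingHom G (Int.castRingHom ℚ) := rfl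
      rw [this]
      exact Matrix.map_one _ (map_zero _) (map_one _)
    rw [h1]
    ext x
    apply coord_ext
    intro j g
    classical
    rw [rMul_apply, Finset.sum_eq_single j]
    · rw [Matrix.one_apply_eq, MonoidAlgebra.one_def, MonoidAlgebra.coeff_single]
      rw [Finsupp.support_single _ (one_ne_zero)]
      simp
    · intro i _ hi
      rw [Matrix.one_apply_ne hi]
      simp
    · simp
  | succ k ih =>
    rw [pow_succ', ih, pow_succ, toQ_mul, rMul_mul]
    rfl

theorem moment_cell (n : ℕ) (a : Fin (C.toFree.rank n)) (k : ℕ) :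
    ∫ x, x ^ k ∂(sm (C.toFree.laplacian n) (unitVec a)) =
      (((lap C.D ^ k) (cellOf C n a).1 (cellOf C n a).1).coeff 1 : ℤ) := by
  rw [moment_sm _ (laplacian_nonneg _ _), FreeCx.laplacian_eq, rMul_pow]
  have h := inner_rMul_unitVec ((C.toFree.lapM n ^ k).map toQ) a a
  have h2 := congrArg Complex.re h
  refine h2.trans ?_
  rw [Matrix.map_apply, lapM_pow, coeff_toQ]
  simp

/-- the spectral measure of the Laplacian at a cell -/
def mu (i : C.ι) : Measure ℝ := sm (C.toFree.laplacian (C.deg i)) (unitVec (num C i))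

instance (i : C.ι) : IsFiniteMeasure (mu C i) := finite_sm _ (laplacian_nonneg _ _) _

theorem ae_mu (i : C.ι) : ∀ᵐ x ∂(mu C i), x ∈ Icc 0 ‖C.toFree.laplacian (C.deg i)‖ :=
  ae_sm _ (laplacian_nonneg _ _) _ le_rfl

/-- a bound for all the Laplacians -/
def bd : ℝ := ∑ i, ‖C.toFree.laplacian (C.deg i)‖

theorem bd_nonneg : 0 ≤ bd C := Finset.sum_nonneg fun _ _ => norm_nonneg _

theorem ae_mu' (i : C.ι) : ∀ᵐ x ∂(mu C i), x ∈ Icc 0 (bd C) :=
  ae_mono (Finset.single_le_sum (f := fun i => ‖C.toFree.laplacian (C.deg i)‖) (fun _ _ => norm_nonneg _)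
    (Finset.mem_univ i)) (ae_mu C i)

/-- **the moments of the spectral measures** -/
theorem moment_mu (i : C.ι) (k : ℕ) : ∫ x, x ^ k ∂(mu C i) = (((lap C.D ^ k) i i).coeff 1 : ℤ) := by
  unfold mu
  rw [moment_cell, cellOf_num]

theorem sm_eq_mu (n : ℕ) (a : Fin (C.toFree.rank n)) :
    sm (C.toFree.laplacian n) (unitVec a) = mu C (cellOf C n a).1 := by
  have := finite_sm _ (laplacian_nonneg C.toFree n) (unitVec a)
  refine eq_of_moments (ae_mono (le_max_left _ _) (ae_sm _ (laplacian_nonneg _ _) _ le_rfl))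
    (ae_mono (le_max_right ‖C.toFree.laplacian n‖ _) (ae_mu C _)) fun k => ?_
  rw [moment_cell, moment_mu]

/-- no mass at zero -/
theorem mu_zero (h : C.toFree.DetL2Acyclic) (i : C.ι) : mu C i {0} = 0 := by
  have h1 := (h (C.deg i)).1
  unfold mu
  refine sm_zero_of_inj _ (laplacian_nonneg _ _) (fun v hv => ?_) _ (norm_unitVec _).le
  unfold FreeCx.l2betti at h1
  rw [FreeCx.laplacian_eq] at h1 hv
  exact inj_of_dimKer _ h1 v hv

/-- the Laplacians are injective if there is no mass at zero -/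
theorem laplacian_inj (h : ∀ i, mu C i {0} = 0) (n : ℕ) (v : L2Pow G (C.toFree.rank n))
    (hv : C.toFree.laplacian n v = 0) : v = 0 := by
  have h1 := laplacian_nonneg C.toFree n
  have h2 : ∀ a, sm (C.toFree.laplacian n) (unitVec a) {0} = 0 := fun a => by rw [sm_eq_mu]; exact h _
  rw [FreeCx.laplacian_eq] at hv h1
  rw [FreeCx.laplacian_eq] at h2
  exact inj_of_sm_zero _ h1 h2 v hv

theorem l2betti_eq_zero (h : ∀ i, mu C i {0} = 0) (n : ℕ) : C.toFree.l2betti n = 0 :=
  FreeCx.dimKer_of_inj _ (laplacian_inj C h n)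

theorem sum_fin (n : ℕ) {M : Type} [AddCommMonoid M] (f : C.ι → M) :
    ∑ a : Fin (C.toFree.rank n), f (cellOf C n a).1 = ∑ i, if C.deg i = n then f i else 0 := by
  rw [← sum_cellOf C n (fun i => if C.deg i = n then f i else 0) (fun k hk => if_neg hk)]
  refine Finset.sum_congr rfl fun a _ => ?_
  rw [if_pos (cellOf C n a).2]

/-- the integrals of the logarithm -/
def ell (i : C.ι) : ℝ := ∫ x in Ioi 0, Real.log x ∂(mu C i)

theorem log_mu (h : C.toFree.DetL2Acyclic) (i : C.ι) : IntegrableOn Real.log (Ioi 0) (mu C i) :=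
  (log_fkDet _ (laplacian_nonneg C.toFree (C.deg i)) (h (C.deg i)).2).1 (num C i)

theorem log_det (h : C.toFree.DetL2Acyclic) (n : ℕ) :
    Real.log (fkDet (C.toFree.laplacian n)) = ∑ i, if C.deg i = n then ell C i else 0 := by
  rw [(log_fkDet _ (laplacian_nonneg C.toFree n) (h n).2).2, ← sum_fin]
  refine Finset.sum_congr rfl fun a _ => ?_
  rw [sm_eq_mu]
  rfl

/-- the torsion as a sum over the cells -/
theorem l2torsion_eq (h : C.toFree.DetL2Acyclic) :
    C.toFree.l2torsion = -(1 / 2) * ∑ i, (-1) ^ C.deg i * C.deg i * ell C i := by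
  unfold FreeCx.l2torsion
  congr 1
  have e1 : ∀ n ∈ Finset.range (C.toFree.dim + 1), (-1 : ℝ) ^ n * n * Real.log (fkDet (C.toFree.laplacian n)) =
      ∑ i, if n = C.deg i then (-1 : ℝ) ^ n * n * ell C i else 0 := by
    intro n _
    rw [log_det C h, Finset.mul_sum]
    refine Finset.sum_congr rfl fun i _ => ?_
    by_cases hi : C.deg i = n
    · rw [if_pos hi, if_pos hi.symm]
    · rw [if_neg hi, if_neg (Ne.symm hi), mul_zero]
  rw [Finset.sum_congr rfl e1, Finset.sum_comm]
  refine Finset.sum_congr rfl fun i _ => ?_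
  rw [Finset.sum_ite_eq', if_pos]
  rw [Finset.mem_range]
  have := Finset.le_sup (f := C.deg) (Finset.mem_univ i)
  exact Nat.lt_succ_of_le this

end cells

end Pool.Agent.V8H64.LT
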