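import Pool.Agent.N496.LT.Main
import Pool.Agent.V8H64.LT.Mu

/-!
# Project LT: the `L²`-torsion of a product of acyclic complexes is zero
-/

set_option autoImplicit false

open scoped Matrix InnerProductSpace Topology

noncomputable section

namespace Pool.Agent.V8H64.LT

open MeasureTheory Pool.Agent.Helper993.FK Set Pool.Agent.N496.LT Pool.Agent.TH630.Tor

section signed
variable {J : Type} [Fintype J]

/-- signed sums of finite measures with vanishing moments -/
theorem signed_log (s : J → ℝ) (hs : ∀ j, s j = 1 ∨ s j = -1) (μ : J → Measure ℝ) [∀ j, IsFiniteMeasure (μ j)]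
    {R : ℝ} (hR : ∀ j, ∀ᵐ x ∂(μ j), x ∈ Icc 0 R) (h : ∀ k : ℕ, ∑ j, s j * ∫ x, x ^ k ∂(μ j) = 0)
    (hl : ∀ j, IntegrableOn Real.log (Ioi 0) (μ j)) :
    ∑ j, s j * ∫ x in Ioi 0, Real.log x ∂(μ j) = 0 := by
  classical
  -- the positive and the negative part
  have key : ∀ P : Finset J, IsFiniteMeasure (∑ j ∈ P, μ j) ∧ (∀ᵐ x ∂(∑ j ∈ P, μ j), x ∈ Icc 0 R) ∧
      (∀ k : ℕ, ∫ x, x ^ k ∂(∑ j ∈ P, μ j) = ∑ j ∈ P, ∫ x, x ^ k ∂(μ j)) ∧
      ∫ x in Ioi 0, Real.log x ∂(∑ j ∈ P, μ j) = ∑ j ∈ P, ∫ x in Ioi 0, Real.log x ∂(μ j) := by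
    intro P
    refine ⟨?_, ?_, fun k => ?_, ?_⟩
    · constructor
      rw [Measure.finsetSum_apply]
      exact ENNReal.sum_lt_top.2 fun j _ => measure_lt_top _ _
    · rw [ae_iff, Measure.finsetSum_apply]
      exact Finset.sum_eq_zero fun j _ => (ae_iff.1 (hR j))
    · exact integral_finsetSum_measure fun j _ => integrable_cont (hR j) (by fun_prop)
    · have h3 : (∑ j ∈ P, μ j).restrict (Ioi 0) = ∑ j ∈ P, (μ j).restrict (Ioi 0) := by
        ext t ht
        rw [Measure.restrict_apply ht, Measure.finsetSum_apply, Measure.finsetSum_apply]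
        exact Finset.sum_congr rfl fun j _ => (Measure.restrict_apply ht).symm
      rw [h3]
      exact integral_finsetSum_measure fun j _ => hl j
  obtain ⟨i1, a1, m1, l1⟩ := key (Finset.univ.filter fun j => s j = 1)
  obtain ⟨i2, a2, m2, l2⟩ := key (Finset.univ.filter fun j => ¬ s j = 1)
  have hsplit : ∀ f : J → ℝ, ∑ j, s j * f j = ∑ j ∈ Finset.univ.filter (fun j => s j = 1), f j -
      ∑ j ∈ Finset.univ.filter (fun j => ¬ s j = 1), f j := by
    intro f
    rw [← Finset.sum_filter_add_sum_filter_not Finset.univ (fun j => s j = 1), sub_eq_add_neg,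
      ← Finset.sum_neg_distrib]
    congr 1
    · refine Finset.sum_congr rfl fun j hj => ?_
      rw [(Finset.mem_filter.1 hj).2, one_mul]
    · refine Finset.sum_congr rfl fun j hj => ?_
      rw [(hs j).resolve_left (Finset.mem_filter.1 hj).2, neg_one_mul]
  have heq := eq_of_moments a1 a2 fun k => by
    rw [m1, m2]
    have := h k
    rw [hsplit] at this
    linarith
  rw [hsplit, ← l1, ← l2, heq, sub_self]

end signed

section euler
variable {G : Type} [Group G] (C : GCx G)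

theorem str_moment (k : ℕ) : ∑ i, (-1 : ℝ) ^ C.deg i * ∫ x, x ^ k ∂(mu C i) = (str C.deg (lap C.D ^ k) : ℤ) := by
  unfold str
  push_cast
  refine Finset.sum_congr rfl fun i _ => ?_
  rw [moment_mu]

/-- the supertraces of all the powers of the Laplacian vanish for an acyclic complex -/
theorem str_zero (h : C.toFree.DetL2Acyclic) (k : ℕ) : str C.deg (lap C.D ^ k) = 0 := by
  rcases Nat.eq_zero_or_pos k with rfl | hk
  swap
  · obtain ⟨m, rfl⟩ : ∃ m, k = m + 1 := ⟨k - 1, by omega⟩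
    exact str_lap C.deg C.D C.D_deg C.D_sq m
  have hR : 0 < bd C + 1 := by linarith [bd_nonneg C]
  obtain ⟨R, hRe⟩ : ∃ R, R = bd C + 1 := ⟨_, rfl⟩
  rw [← hRe] at hR
  have hae : ∀ i, ∀ᵐ x ∂(mu C i), x ∈ Icc 0 R := fun i => ae_mono (by linarith) (ae_mu' C i)
  -- the polynomials
  have h1 : ∀ n : ℕ, ∑ i, (-1 : ℝ) ^ C.deg i * ∫ x, (1 - x / R) ^ n ∂(mu C i) = (str C.deg (lap C.D ^ 0) : ℤ) := by
    intro n
    have e1 : ∀ i, ∫ x, (1 - x / R) ^ n ∂(mu C i) =
        ∑ m ∈ Finset.range (n + 1), ((-1 / R) ^ m * (n.choose m)) * ∫ x, x ^ m ∂(mu C i) := by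
      intro i
      have e2 : ∀ x : ℝ, (1 - x / R) ^ n = ∑ m ∈ Finset.range (n + 1), ((-1 / R) ^ m * (n.choose m)) * x ^ m := by
        intro x
        have : 1 - x / R = (-1 / R) * x + 1 := by ring
        rw [this, add_pow]
        refine Finset.sum_congr rfl fun m _ => ?_
        rw [mul_pow, one_pow, mul_one]
        ring
      simp only [e2]
      rw [integral_finsetSum _ fun m _ => (integrable_cont (hae i) (by fun_prop))]
      exact Finset.sum_congr rfl fun m _ => integral_const_mul _ _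
    rw [Finset.sum_congr rfl fun i _ => by rw [e1 i, Finset.mul_sum], Finset.sum_comm]
    rw [Finset.sum_eq_single 0]
    · rw [← str_moment]
      simp
    · intro m _ hm
      obtain ⟨m', rfl⟩ : ∃ m', m = m' + 1 := ⟨m - 1, by omega⟩
      have e3 : ∑ i, (-1 : ℝ) ^ C.deg i * (((-1 / R) ^ (m' + 1) * (n.choose (m' + 1))) * ∫ x, x ^ (m' + 1) ∂(mu C i)) =
          ((-1 / R) ^ (m' + 1) * (n.choose (m' + 1))) *
            ∑ i, (-1 : ℝ) ^ C.deg i * ∫ x, x ^ (m' + 1) ∂(mu C i) := by
        rw [Finset.mul_sum]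
        refine Finset.sum_congr rfl fun i _ => ?_
        ring
      rw [e3, str_moment, str_lap C.deg C.D C.D_deg C.D_sq m']
      simp
    · simp
  have h2 : ∀ i, Filter.Tendsto (fun n : ℕ => ∫ x, (1 - x / R) ^ n ∂(mu C i)) Filter.atTop (𝓝 0) := by
    intro i
    have h3 : Filter.Tendsto (fun n : ℕ => ∫ x, (1 - x / R) ^ n ∂(mu C i)) Filter.atTop
        (𝓝 (∫ x, ({0} : Set ℝ).indicator (fun _ => (1 : ℝ)) x ∂(mu C i))) := by
      refine tendsto_integral_of_dominated_convergence (fun _ => (1 : ℝ))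
        (fun n => (Continuous.aestronglyMeasurable (by fun_prop))) (integrable_const _) (fun n => ?_) ?_
      · filter_upwards [hae i] with x hx
        rw [norm_pow]
        apply pow_le_one₀ (norm_nonneg _)
        rw [Real.norm_eq_abs, abs_le]
        have h4 : 0 ≤ x / R := div_nonneg hx.1 hR.le
        have h5 : x / R ≤ 1 := (div_le_one hR).2 hx.2
        constructor <;> linarith
      · filter_upwards [ae_mu' C i] with x hx
        by_cases hx0 : x = 0
        · subst hx0
          simp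
        · have hpos : 0 < x := lt_of_le_of_ne hx.1 (Ne.symm hx0)
          rw [indicator_of_notMem (by simpa using hx0)]
          apply tendsto_pow_atTop_nhds_zero_of_abs_lt_one
          have h4 : 0 < x / R := div_pos hpos hR
          have h5 : x / R ≤ 1 := (div_le_one hR).2 (by rw [hRe]; linarith [hx.2])
          rw [abs_lt]
          constructor <;> linarith
    have h4 : ∫ x, ({0} : Set ℝ).indicator (fun _ => (1 : ℝ)) x ∂(mu C i) = 0 := by
      rw [integral_indicator (measurableSet_singleton 0)]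
      simp [Measure.real, mu_zero C h i]
    rwa [h4] at h3
  have h3 : Filter.Tendsto (fun n : ℕ => ∑ i, (-1 : ℝ) ^ C.deg i * ∫ x, (1 - x / R) ^ n ∂(mu C i)) Filter.atTop
      (𝓝 (∑ i, (-1 : ℝ) ^ C.deg i * 0)) := tendsto_finsetSum _ fun i _ => (h2 i).const_mul _
  simp only [h1] at h3
  have h4 := tendsto_nhds_unique h3 tendsto_const_nhds
  have h5 : ((str C.deg (lap C.D ^ 0) : ℤ) : ℝ) = 0 := by
    rw [← h4]
    simp
  exact_mod_cast h5

end euler

section prod
variable {G H : Type} [Group G] [Group H] (C : GCx G) (E : GCx H)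

theorem prod_D : (C.prod E).D = prodD C.deg C.D E.D := by
  have key : ∀ x y : C.ι × E.ι, (if x.2 = y.2 then (inl (C.D x.1 y.1) : MonoidAlgebra ℤ (G × H)) else 0) +
      (if x.1 = y.1 then (-1) ^ C.deg x.1 * inr (E.D x.2 y.2) else 0) = prodD C.deg C.D E.D x y := by
    intro x y
    unfold prodD sgn
    rw [Matrix.add_apply, Matrix.diagonal_mul]
    change _ = (if x.2 = y.2 then inl (C.D x.1 y.1) else 0) +
      (-1) ^ C.deg x.1 * (if x.1 = y.1 then inr (E.D x.2 y.2) else 0)
    congr 1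
    split_ifs
    · rfl
    · rw [mul_zero]
  exact Matrix.ext key

theorem lap_prod_coeff (k : ℕ) (i : C.ι) (j : E.ι) :
    ((lap (C.prod E).D ^ k) (i, j) (i, j)).coeff 1 = ∑ m ∈ Finset.range (k + 1),
      ((lap C.D ^ m) i i).coeff 1 * ((lap E.D ^ (k - m)) j j).coeff 1 * (k.choose m : ℤ) := by
  rw [prod_D]
  exact coeff_lap_prodD C.deg C.D E.D C.D_deg k i j

theorem sign_cases (n : ℕ) : (-1 : ℝ) ^ n = 1 ∨ (-1 : ℝ) ^ n = -1 := neg_one_pow_eq_or ℝ n

theorem sum_right (hE : E.toFree.DetL2Acyclic) (h : (C.prod E).toFree.DetL2Acyclic) (i : C.ι) :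
    ∑ j, (-1 : ℝ) ^ E.deg j * ell (C.prod E) (i, j) = 0 := by
  have inst : ∀ j, IsFiniteMeasure (mu (C.prod E) (i, j)) := fun j => finite_sm _ (laplacian_nonneg _ _) _
  refine signed_log (fun j => (-1 : ℝ) ^ E.deg j) (fun j => sign_cases _) (fun j => mu (C.prod E) (i, j))
    (fun j => ae_mu' (C.prod E) (i, j)) (fun k => ?_) (fun j => log_mu (C.prod E) h (i, j))
  have h1 : ∑ j, (-1 : ℤ) ^ E.deg j * ((lap (C.prod E).D ^ k) (i, j) (i, j)).coeff 1 = 0 := by
    rw [Finset.sum_congr rfl fun j _ => by rw [lap_prod_coeff, Finset.mul_sum], Finset.sum_comm]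
    refine Finset.sum_eq_zero fun m _ => ?_
    have h2 := str_zero E hE (k - m)
    unfold str at h2
    calc ∑ j, (-1 : ℤ) ^ E.deg j * (((lap C.D ^ m) i i).coeff 1 * ((lap E.D ^ (k - m)) j j).coeff 1 *
          (k.choose m : ℤ)) = (((lap C.D ^ m) i i).coeff 1 * (k.choose m : ℤ)) *
            ∑ j, (-1 : ℤ) ^ E.deg j * ((lap E.D ^ (k - m)) j j).coeff 1 := by
          rw [Finset.mul_sum]
          refine Finset.sum_congr rfl fun j _ => ?_
          ring
      _ = 0 := by rw [h2, mul_zero]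
  have h2 := congrArg (fun z : ℤ => (z : ℝ)) h1
  simp only [Int.cast_sum, Int.cast_mul, Int.cast_pow, Int.cast_neg, Int.cast_one, Int.cast_zero] at h2
  rw [← h2]
  exact Finset.sum_congr rfl fun j _ => congrArg (fun t => (-1 : ℝ) ^ E.deg j * t)
    (moment_mu (C.prod E) (i, j) k)

theorem sum_left (hC : C.toFree.DetL2Acyclic) (h : (C.prod E).toFree.DetL2Acyclic) (j : E.ι) :
    ∑ i, (-1 : ℝ) ^ C.deg i * ell (C.prod E) (i, j) = 0 := by
  have inst : ∀ i, IsFiniteMeasure (mu (C.prod E) (i, j)) := fun i => finite_sm _ (laplacian_nonneg _ _) _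
  refine signed_log (fun i => (-1 : ℝ) ^ C.deg i) (fun i => sign_cases _) (fun i => mu (C.prod E) (i, j))
    (fun i => ae_mu' (C.prod E) (i, j)) (fun k => ?_) (fun i => log_mu (C.prod E) h (i, j))
  have h1 : ∑ i, (-1 : ℤ) ^ C.deg i * ((lap (C.prod E).D ^ k) (i, j) (i, j)).coeff 1 = 0 := by
    rw [Finset.sum_congr rfl fun i _ => by rw [lap_prod_coeff, Finset.mul_sum], Finset.sum_comm]
    refine Finset.sum_eq_zero fun m _ => ?_
    have h2 := str_zero C hC m
    unfold str at h2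
    calc ∑ i, (-1 : ℤ) ^ C.deg i * (((lap C.D ^ m) i i).coeff 1 * ((lap E.D ^ (k - m)) j j).coeff 1 *
          (k.choose m : ℤ)) = (((lap E.D ^ (k - m)) j j).coeff 1 * (k.choose m : ℤ)) *
            ∑ i, (-1 : ℤ) ^ C.deg i * ((lap C.D ^ m) i i).coeff 1 := by
          rw [Finset.mul_sum]
          refine Finset.sum_congr rfl fun i _ => ?_
          ring
      _ = 0 := by rw [h2, mul_zero]
  have h2 := congrArg (fun z : ℤ => (z : ℝ)) h1
  simp only [Int.cast_sum, Int.cast_mul, Int.cast_pow, Int.cast_neg, Int.cast_one, Int.cast_zero] at h2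
  rw [← h2]
  exact Finset.sum_congr rfl fun i _ => congrArg (fun t => (-1 : ℝ) ^ C.deg i * t)
    (moment_mu (C.prod E) (i, j) k)

end prod

/-- **the `L²`-torsion of a product of acyclic complexes is zero** -/
theorem p5b : Pool.Agent.N496.LT.P5B := by
  intro G H _ _ C E hC hE h
  rw [l2torsion_eq _ h]
  have e0 : ∀ f : (C.prod E).ι → ℝ, ∑ x, f x = ∑ i : C.ι, ∑ j : E.ι, f (i, j) := fun f =>
    Fintype.sum_prod_type f
  have e1 : ∑ x : (C.prod E).ι, (-1 : ℝ) ^ (C.prod E).deg x * (C.prod E).deg x * ell (C.prod E) x = 0 := by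
    rw [e0]
    have e2 : ∀ i j, (-1 : ℝ) ^ (C.prod E).deg (i, j) * (C.prod E).deg (i, j) * ell (C.prod E) (i, j) =
        (-1) ^ C.deg i * C.deg i * ((-1) ^ E.deg j * ell (C.prod E) (i, j)) +
        (-1) ^ E.deg j * E.deg j * ((-1) ^ C.deg i * ell (C.prod E) (i, j)) := by
      intro i j
      have : (C.prod E).deg (i, j) = C.deg i + E.deg j := rfl
      rw [this, pow_add]
      push_cast
      ring
    simp only [e2, Finset.sum_add_distrib]
    have e3 : ∀ i, ∑ j, (-1 : ℝ) ^ C.deg i * C.deg i * ((-1) ^ E.deg j * ell (C.prod E) (i, j)) = 0 := by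
      intro i
      rw [← Finset.mul_sum, sum_right C E hE h, mul_zero]
    have e4 : ∑ i, ∑ j, (-1 : ℝ) ^ E.deg j * E.deg j * ((-1) ^ C.deg i * ell (C.prod E) (i, j)) = 0 := by
      rw [Finset.sum_comm]
      refine Finset.sum_eq_zero fun j _ => ?_
      rw [← Finset.mul_sum, sum_left C E hC h, mul_zero]
    rw [e4, add_zero]
    exact Finset.sum_eq_zero fun i _ => e3 i
  rw [e1, mul_zero]

end Pool.Agent.V8H64.LT
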